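import Pool.Agent.MP_57f271_lc.H7.Fam

namespace Pool.Agent.MP_57f271_lc.H7

open Pool.Agent.MP_57f271_lc.H18 Pool.Agent.MP_57f271_lc.H27 MvPolynomial
open Function hiding eval

variable {m n k : ℕ}

noncomputable def sys (F : Fin k → MvPolynomial (Fin n) (RR m)) (p : Fin m → ℂ) : System :=
  ⟨n, k, fun i => map (eval p) (F i)⟩

noncomputable def u0 (E : Encoding) (F : Fin k → MvPolynomial (Fin n) (RR m)) (d : Fin k → ℕ) :
    ℤ → LL m :=
  extend (E.pos n k d) (fun s => io (coeff s.2.1 (F s.1))) fun j => (E.rest n k d j : LL m)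

noncomputable def ph (F : Fin k → MvPolynomial (Fin n) (RR m)) (d : Fin k → ℕ) :
    MvPolynomial (Slot n k d) ℂ →+* LL m :=
  io.comp (aeval fun s : Slot n k d => coeff s.2.1 (F s.1) :
    MvPolynomial (Slot n k d) ℂ →ₐ[ℂ] RR m).toRingHom

theorem Rel.ext {P B ι : Type} [CommRing P] [Field B] {φ : P →+* B} {g : ι → ℤ} (hg : Injective g)
    (a : ι → P) (r : ℤ → ℕ) (j : ℤ) :
    Rel φ (extend g (fun s => algebraMap P (FractionRing P) (a s)) (fun j => (r j : FractionRing P)) j)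
      (extend g (fun s => φ (a s)) (fun j => (r j : B)) j) := by
  by_cases hj : ∃ s, g s = j
  · obtain ⟨s, rfl⟩ := hj
    rw [hg.extend_apply, hg.extend_apply]
    exact Rel.of _
  · rw [extend_apply' _ _ _ hj, extend_apply' _ _ _ hj]
    simpa using Rel.of (φ := φ) (r j)

variable (M : Machine) (E : Encoding) (F : Fin k → MvPolynomial (Fin n) (RR m))

theorem rel_state (p : Fin m → ℂ) (j : ℤ) :
    Rel (eval p) (u0 E F (sys F p).deg j) (E.state (sys F p) j) := by
  have := Rel.ext (φ := eval p) (E.inj n k (sys F p).deg) (fun s => coeff s.2.1 (F s.1))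
    (E.rest n k (sys F p).deg) j
  simp only [← coeff_map] at this
  exact this

theorem rel_sym (p : Fin m → ℂ) (t : ℕ)
    (hg : ∀ s < t, crit M (M.start, u0 E F (sys F p).deg) s ≠ 0 →
      ∃ a b, eval p a ≠ 0 ∧ crit M (M.start, u0 E F (sys F p).deg) s * io b = io a) (j : ℤ) :
    Rel (ph F (sys F p).deg) (sym M E (sys F p) t j)
      (((stepL M)^[t] (M.start, u0 E F (sys F p).deg)).2 j) := by
  induction t generalizing j with
  | zero =>
    have := Rel.ext (φ := ph F (sys F p).deg) (E.inj n k (sys F p).deg) X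
      (E.rest n k (sys F p).deg) j
    simp only [ph, RingHom.comp_apply, AlgHom.toRingHom_eq_coe, RingHom.coe_coe, aeval_X] at this
    simp only [sym, symRun, symInit, toFrac, map_natCast]
    exact this
  | succ t ih =>
    obtain ⟨h1, h2⟩ := run_rel M p (rel_state E F p) t fun s hs => hg s (by omega)
    have h3 := hg t (by omega)
    have h4 := ih fun s hs => hg s (by omega)
    rw [iterate_succ_apply', sym, symRun, h1]
    unfold crit at h3
    generalize (stepL M)^[t] (M.start, u0 E F (sys F p).deg) = c at h2 h3 h4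
    have := rel_step (φ := ph F (sys F p).deg) C (M.instr c.1) h4
      (x := (M.step^[t] (M.start, E.state (sys F p))).2) ⟨fun h => by
        by_contra h5
        obtain ⟨a, b, h6, h7⟩ := h3 h5
        exact (h2 _).ne h6 h7 h, (h2 _).zero⟩ (ind_iff _ _) j
    simp only [ph, RingHom.comp_apply, AlgHom.toRingHom_eq_coe, RingHom.coe_coe, aeval_C,
      algebraMap_eq] at this
    exact this

theorem high_of_not_low {σ Q : Type} {f : σ → RR m} {e D : ℕ} (hf : ∀ s, (f s).totalDegree ≤ e)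
    (I : Instr Q) {v : ℤ → FractionRing (MvPolynomial σ ℂ)} {z : ℤ → LL m}
    (h : ∀ j, Rel (io.comp (aeval f : MvPolynomial σ ℂ →ₐ[ℂ] RR m).toRingHom) (v j) (z j))
    (hl : ¬ LowRes (e * (D + 1)) I z) : HighAdd D I v := by
  rcases I with ⟨o, i, j, k, q⟩ | ⟨a, i, k, q⟩ | ⟨a, k, q⟩ | ⟨l, q⟩ | ⟨i, y, n⟩ | b
  · cases o
    · exact fun h1 => hl (base_of_low hf ((h i).add (h j)) h1)
    · exact fun h1 => hl (base_of_low hf ((h i).sub (h j)) h1)
    all_goals exact absurd trivial hl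
  all_goals exact absurd trivial hl

theorem core {d : Fin k → ℕ} {W : Finset ℂ} {e : ℕ} (hd : ∀ p, (sys F p).deg = d)
    (hc : ∀ i μ, ((F i).coeff μ).totalDegree ≤ e) (hf : ∀ p, (sys F p).Feasible ↔ ∃ i, p i ∈ W)
    (hM : DecidesSize M E (Nat.card (Slot n k d))) (T : ℕ) : ∃ p, ∀ t ≤ T, ∀ b D,
      M.Outputs (E.state (sys F p)) t b →
        W.card ≤ m * (4 * (e * (D + 1)) * t) ∨ m ≤ highAdds M E (sys F p) D t := by
  classical
  have out : ∀ p t b, M.Outputs (E.state (sys F p)) t b → (b = true ↔ ∃ i, p i ∈ W) :=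
    fun p t b h => by
      obtain ⟨t', b', h1, h2⟩ := hM (sys F p) (by rw [System.size, hd]; rfl)
      rw [M.outputs_unique h h1, h2, hf]
  have h0 : ∀ v : LL m, ∃ a b, a ≠ 0 ∧ (v ≠ 0 → v * io b = io a) := fun v => by
    obtain ⟨a, b, hb, rfl⟩ := IsFractionRing.div_surjective (A := RR m) v
    rcases eq_or_ne a 0 with rfl | ha
    · exact ⟨1, 1, one_ne_zero, fun h => absurd (by simp) h⟩
    · exact ⟨a, b, ha, fun _ => div_mul_cancel₀ _ (io_ne (nonZeroDivisors.ne_zero hb))⟩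
  choose a b ha hb using h0
  obtain ⟨p, hp⟩ := exists_eval (a := (∏ s ∈ Finset.range T, a (crit M (M.start, u0 E F d) s)) *
    ∏ i, ∏ w ∈ W, (X i - C w)) (mul_ne_zero (Finset.prod_ne_zero_iff.2 fun _ _ => ha _)
      (Finset.prod_ne_zero_iff.2 fun i _ => Finset.prod_ne_zero_iff.2 fun w _ h => by
        have := congrArg (eval fun _ => w + 1) h
        simp at this))
  simp only [map_mul, map_prod, mul_ne_zero_iff, Finset.prod_ne_zero_iff, map_sub, eval_X, eval_C,
    Finset.mem_range, sub_ne_zero] at hp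
  refine ⟨p, fun t ht b0 D h => ?_⟩
  have hg : ∀ s < t, crit M (M.start, u0 E F d) s ≠ 0 →
      ∃ a b, eval p a ≠ 0 ∧ crit M (M.start, u0 E F d) s * io b = io a := fun s hs h1 =>
    ⟨_, _, hp.1 s (by omega), hb _ h1⟩
  obtain ⟨c, c1, c2, c3, -⟩ := run_log M (M.start, u0 E F d) (e := e * (D + 1)) (fun j => by
    by_cases hj : ∃ s, E.pos n k d s = j
    · obtain ⟨s, rfl⟩ := hj
      exact ⟨_, 1, (hc s.1 s.2.1).trans (Nat.le_mul_of_pos_right _ D.succ_pos), by simp,
        by simp [u0, (E.inj _ _ _).extend_apply]⟩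
    · exact ⟨C (E.rest n k d j), 1, by rw [totalDegree_C]; omega, by simp,
        by simp [u0, extend_apply' _ _ _ hj]⟩) t
  rcases lt_or_ge c.T.card m with hm | hm
  · left
    obtain ⟨i, P, p1, p2, p3⟩ := unit_along c hm
    refine (card_le i p1 W fun w hw => ?_).trans (p2.trans (Nat.mul_le_mul hm c1))
    by_contra h1
    have h2 : ∀ s, ∃ a b, res i w a ≠ 0 ∧ (s < t → crit M (M.start, u0 E F d) s ≠ 0 →
        crit M (M.start, u0 E F d) s * io b = io a) := fun s => by
      by_cases h3 : s < t ∧ crit M (M.start, u0 E F d) s ≠ 0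
      · obtain ⟨x, y, h4, -, h5⟩ := p3 w h1 _ h3.2 (c3 s h3.1)
        exact ⟨x, y, h4, fun _ _ => h5⟩
      · exact ⟨1, 1, by simp, fun h4 h5 => absurd ⟨h4, h5⟩ h3⟩
    choose x y hx hy using h2
    obtain ⟨r, hr⟩ := exists_eval (a := ∏ s ∈ Finset.range t, res i w (x s))
      (Finset.prod_ne_zero_iff.2 fun s _ => hx s)
    simp only [map_prod, Finset.prod_ne_zero_iff, eval_res, Finset.mem_range] at hr
    have h3 := (run_rel M _ (hd _ ▸ rel_state E F (update r i w)) t fun s hs h1 =>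
      ⟨_, _, hr s hs, hy s hs h1⟩).1
    have h4 := (run_rel M _ (hd _ ▸ rel_state E F p) t hg).1
    obtain ⟨j, hj⟩ := (out p t b0 h).1 ((out (update r i w) t b0
      (by rwa [Machine.Outputs, h3, ← h4])).2 ⟨i, by simpa using hw⟩)
    exact hp.2 j (Finset.mem_univ _) _ hj rfl
  · right
    refine hm.trans (c2.trans ?_)
    rw [← Set.ncard_coe_finset]
    refine Set.ncard_le_ncard (fun i hi => ?_) ((Set.finite_lt_nat t).subset fun i hi => hi.1)
    obtain ⟨h1, h2⟩ := Finset.mem_filter.1 (Finset.mem_coe.1 hi)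
    have h3 := Finset.mem_range.1 h1
    obtain rfl := hd p
    refine ⟨h3, ?_⟩
    rw [(run_rel M _ (rel_state E F p) i fun s hs => hg s (by omega)).1]
    exact high_of_not_low (fun s => hc _ _) _ (rel_sym M E F p i fun s hs => hg s (by omega)) h2

theorem main (K : ℕ) (hK : 1 ≤ K) : ∃ s, K ≤ s ∧ s ≤ 2 * (4 * K + 5) ^ 3 ∧
    ∀ (M : Machine) (E : Encoding), DecidesSize M E s → ∃ S : System, S.size = s ∧
      ∀ t b D, M.Outputs (E.state S) t b →
        2 ^ K ≤ 4 * K ^ 6 * (D + 1) * t ∨ K ^ 3 ≤ highAdds M E S D t + 1 := by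
  obtain ⟨m, hm⟩ : ∃ m, m + 1 = K ^ 3 := ⟨K ^ 3 - 1, Nat.sub_add_cancel (Nat.one_le_pow _ _ hK)⟩
  obtain ⟨n, k, d, F, W, h1, h2, h3, h4, h5, h6⟩ := family K hm
  refine ⟨_, h2, h3, fun M E hM => ?_⟩
  have hd : ∀ p, (sys F p).deg = d := fun p => funext (h5 p)
  obtain ⟨p, hp⟩ := core M E F hd h4 h6 hM (2 ^ K)
  refine ⟨sys F p, by rw [System.size, hd]; rfl, fun t b D h => ?_⟩
  rcases le_or_gt t (2 ^ K) with ht | ht
  · refine (hp t ht b D h).imp (fun h7 => (h1 ▸ h7).trans ?_) fun h7 => by omega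
    rw [show K ^ 6 = (m + 1) ^ 2 by rw [hm]; ring]
    have : m * (4 * (m * (D + 1)) * t) = 4 * m ^ 2 * (D + 1) * t := by ring
    rw [this]
    gcongr
    omega
  · exact .inl (ht.le.trans (Nat.le_mul_of_pos_left _ (by positivity)))

end Pool.Agent.MP_57f271_lc.H7
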