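import Mathlib

namespace Pool.Agent.MP_57f271_lc.H7

open MvPolynomial Finset

abbrev RR (m : ℕ) : Type := MvPolynomial (Fin m) ℂ
abbrev LL (m : ℕ) : Type := FractionRing (RR m)

variable {m : ℕ}

noncomputable abbrev io : RR m →+* LL m := algebraMap (RR m) (LL m)

theorem io_inj : Function.Injective (io (m := m)) := IsFractionRing.injective _ _

theorem io_ne {a : RR m} (h : a ≠ 0) : io a ≠ 0 := (map_ne_zero_iff _ io_inj).2 h

theorem exists_grad (m : ℕ) : ∃ g : LL m → Fin m → LL m, (∀ u v, g (u + v) = g u + g v) ∧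
    (∀ u v, g (u * v) = u • g v + v • g u) ∧ ∀ a k, g (io a) k = io (pderiv k a) := by
  classical
  let θ : RR m →+* TrivSqZeroExt (LL m) (Fin m → LL m) :=
    eval₂Hom ((TrivSqZeroExt.inlHom _ _).comp ((algebraMap (RR m) (LL m)).comp C))
      fun k => TrivSqZeroExt.inl (io (X k)) + TrivSqZeroExt.inr (Pi.single k 1)
  have h1 : ∀ a, (θ a).fst = io a ∧ ∀ k, (θ a).snd k = io (pderiv k a) := fun a => by
    induction a using MvPolynomial.induction_on with
    | C c => simp [θ]
    | add a b ha hb => simp [ha.1, hb.1, ha.2, hb.2]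
    | mul_X a j ha =>
      have h2 : θ (X j) = TrivSqZeroExt.inl (io (X j)) + TrivSqZeroExt.inr (Pi.single j 1) := by
        simp [θ]
      refine ⟨by simp [ha.1, h2], fun k => ?_⟩
      rw [map_mul, TrivSqZeroExt.snd_mul, h2]
      by_cases h : j = k
      · subst h
        simp [ha.1, ha.2, Algebra.smul_def]
      · simp [ha.1, ha.2, Algebra.smul_def, Pi.single_eq_of_ne' h, pderiv_X_of_ne h]
  have hu : ∀ b : nonZeroDivisors (RR m), IsUnit (θ b) := fun b =>
    TrivSqZeroExt.isUnit_iff_isUnit_fst.2 (by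
      rw [(h1 b).1]
      exact (io_ne (nonZeroDivisors.ne_zero b.2)).isUnit)
  let Θ : LL m →+* TrivSqZeroExt (LL m) (Fin m → LL m) := IsLocalization.lift hu
  have h3 : (TrivSqZeroExt.fstHom (LL m) (LL m) (Fin m → LL m)).toRingHom.comp Θ = RingHom.id _ :=
    IsLocalization.ringHom_ext (nonZeroDivisors (RR m)) (RingHom.ext fun a => by
      simp [Θ, (h1 a).1])
  have h4 : ∀ u, (Θ u).fst = u := fun u => RingHom.congr_fun h3 u
  refine ⟨fun u => (Θ u).snd, fun u v => by simp, fun u v => ?_, fun a k => ?_⟩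
  · simp only [map_mul, TrivSqZeroExt.snd_mul, h4, op_smul_eq_smul]
  · simp only [Θ, IsLocalization.lift_eq, (h1 a).2]

noncomputable def grad : LL m → Fin m → LL m := (exists_grad m).choose

theorem grad_add (u v : LL m) : grad (u + v) = grad u + grad v := (exists_grad m).choose_spec.1 u v

theorem grad_mul (u v : LL m) : grad (u * v) = u • grad v + v • grad u :=
  (exists_grad m).choose_spec.2.1 u v

theorem grad_io (a : RR m) (k : Fin m) : grad (io a) k = io (pderiv k a) :=
  (exists_grad m).choose_spec.2.2 a k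

theorem grad_C (c : ℂ) : grad (io (C c : RR m)) = 0 := funext fun k => by simp [grad_io]

theorem grad_zero : grad (0 : LL m) = 0 := by simpa using grad_C (m := m) 0

theorem grad_one : grad (1 : LL m) = 0 := by simpa using grad_C (m := m) 1

/-- vectors with denominator `F` and numerators of degree at most `E` -/
def Lam (F : RR m) (E : ℕ) (l : Fin m → LL m) : Prop :=
  ∃ a : Fin m → RR m, (∀ k, (a k).totalDegree ≤ E) ∧ ∀ k, io F * l k = io (a k)

theorem Lam.zero {F : RR m} {E : ℕ} : Lam F E 0 := ⟨0, by simp, by simp⟩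

theorem Lam.add {F : RR m} {E : ℕ} {l l' : Fin m → LL m} (h : Lam F E l) (h' : Lam F E l') :
    Lam F E (l + l') := by
  obtain ⟨a, h1, h2⟩ := h
  obtain ⟨b, h3, h4⟩ := h'
  exact ⟨a + b, fun k => (totalDegree_add _ _).trans (max_le (h1 k) (h3 k)), fun k => by
    simp [mul_add, h2, h4]⟩

theorem Lam.sub {F : RR m} {E : ℕ} {l l' : Fin m → LL m} (h : Lam F E l) (h' : Lam F E l') :
    Lam F E (l - l') := by
  obtain ⟨a, h1, h2⟩ := h
  obtain ⟨b, h3, h4⟩ := h'
  exact ⟨a - b, fun k => (totalDegree_sub _ _).trans (max_le (h1 k) (h3 k)), fun k => by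
    simp [mul_sub, h2, h4]⟩

theorem Lam.ext {F g : RR m} {E e : ℕ} {l : Fin m → LL m} (h : Lam F E l)
    (hg : g.totalDegree ≤ e) : Lam (F * g) (E + e) l := by
  obtain ⟨a, h1, h2⟩ := h
  exact ⟨fun k => a k * g, fun k => (totalDegree_mul _ _).trans (add_le_add (h1 k) hg), fun k => by
    simp only [map_mul, ← h2]; ring⟩

theorem deg_pderiv (k : Fin m) (a : RR m) : (pderiv k a).totalDegree ≤ a.totalDegree := by
  classical
  conv_lhs => rw [a.as_sum, map_sum]
  refine totalDegree_finsetSum_le fun s hs => ?_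
  rw [pderiv_monomial]
  refine (totalDegree_monomial_le _ _).trans (le_trans ?_ (le_totalDegree hs))
  exact Finsupp.degree_mono (show s - Finsupp.single k 1 ≤ s from tsub_le_self)

/-- a common denominator, a degree bound and the forms killed so far -/
structure Ctx (m : ℕ) where
  F : RR m
  E : ℕ
  T : Finset (Fin m → LL m)
  F0 : F ≠ 0
  FE : F.totalDegree ≤ E
  TL : ∀ l ∈ T, Lam F E l

def Ctx.le (c c' : Ctx m) : Prop := (∀ l, Lam c.F c.E l → Lam c'.F c'.E l) ∧ c.T ⊆ c'.T

theorem Ctx.le_rfl (c : Ctx m) : c.le c := ⟨fun _ h => h, Subset.rfl⟩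

theorem Ctx.le.trans {a b c : Ctx m} (h : a.le b) (h' : b.le c) : a.le c :=
  ⟨fun l hl => h'.1 l (h.1 l hl), h.2.trans h'.2⟩

def Log (c : Ctx m) (v : LL m) : Prop :=
  ∃ l, Lam c.F c.E l ∧ grad v - v • l ∈ Submodule.span (LL m) (c.T : Set (Fin m → LL m))

theorem Log.mono {c c' : Ctx m} (h : c.le c') {v : LL m} (hv : Log c v) : Log c' v := by
  obtain ⟨l, h1, h2⟩ := hv
  exact ⟨l, h.1 l h1, Submodule.span_mono (coe_subset.2 h.2) h2⟩

theorem Log.C (c : Ctx m) (a : ℂ) : Log c (io (C a)) := ⟨0, Lam.zero, by simp [grad_C]⟩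

theorem Log.mul {c : Ctx m} {u v : LL m} (hu : Log c u) (hv : Log c v) : Log c (u * v) := by
  obtain ⟨l, h1, h2⟩ := hu
  obtain ⟨l', h3, h4⟩ := hv
  refine ⟨l + l', h1.add h3, ?_⟩
  have : grad (u * v) - (u * v) • (l + l') = v • (grad u - u • l) + u • (grad v - v • l') := by
    rw [grad_mul]
    funext k
    simp only [Pi.add_apply, Pi.smul_apply, smul_eq_mul, Pi.sub_apply]
    ring
  rw [this]
  exact add_mem (Submodule.smul_mem _ _ h2) (Submodule.smul_mem _ _ h4)

theorem Log.inv {c : Ctx m} {u : LL m} (hu : Log c u) : Log c u⁻¹ := by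
  rcases eq_or_ne u 0 with rfl | h0
  · rwa [inv_zero]
  obtain ⟨l, h1, h2⟩ := hu
  refine ⟨0 - l, Lam.zero.sub h1, ?_⟩
  have h3 := grad_mul u u⁻¹
  rw [mul_inv_cancel₀ h0, grad_one] at h3
  have : grad u⁻¹ - u⁻¹ • (0 - l) = (-(u⁻¹ * u⁻¹)) • (grad u - u • l) := by
    funext k
    have h4 := congrFun h3 k
    simp only [Pi.add_apply, Pi.smul_apply, smul_eq_mul, Pi.zero_apply, Pi.sub_apply] at h4 ⊢
    field_simp
    field_simp at h4
    linear_combination -h4
  rw [this]
  exact Submodule.smul_mem _ _ h2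

theorem Log.add {c : Ctx m} {u v : LL m} (hu : Log c u) (hv : Log c v) :
    ∃ c' : Ctx m, c.le c' ∧ c'.E = c.E ∧ c'.T.card ≤ c.T.card + 1 ∧ Log c' (u + v) := by
  classical
  obtain ⟨l, h1, h2⟩ := hu
  obtain ⟨l', h3, h4⟩ := hv
  have hs : Submodule.span (LL m) (c.T : Set (Fin m → LL m)) ≤
      Submodule.span (LL m) (insert (l' - l) c.T : Finset (Fin m → LL m)) :=
    Submodule.span_mono (coe_subset.2 (subset_insert _ _))
  refine ⟨⟨c.F, c.E, insert (l' - l) c.T, c.F0, c.FE, fun x hx => ?_⟩,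
    ⟨fun _ h => h, subset_insert _ _⟩, rfl, card_insert_le _ _, l, h1, ?_⟩
  · rcases mem_insert.1 hx with rfl | hx
    exacts [h3.sub h1, c.TL x hx]
  · have : grad (u + v) - (u + v) • l = (grad u - u • l) + (grad v - v • l') + v • (l' - l) := by
      rw [grad_add]
      funext k
      simp only [Pi.add_apply, Pi.smul_apply, smul_eq_mul, Pi.sub_apply]
      ring
    rw [this]
    exact add_mem (add_mem (hs h2) (hs h4))
      (Submodule.smul_mem _ _ (Submodule.subset_span (by simp)))

theorem log_poly (c : Ctx m) {a : RR m} {e : ℕ} (ha : a.totalDegree ≤ e) :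
    ∃ c' : Ctx m, c.le c' ∧ c'.E = c.E + e ∧ c'.T = c.T ∧ Log c' (io a) := by
  rcases eq_or_ne a 0 with rfl | h0
  · refine ⟨⟨c.F * 1, c.E + e, c.T, by simpa using c.F0, by simpa using c.FE.trans (by omega),
      fun l hl => (c.TL l hl).ext (by simp)⟩, ⟨fun l hl => hl.ext (by simp), Subset.rfl⟩, rfl, rfl,
      ?_⟩
    simpa using Log.C _ 0
  refine ⟨⟨c.F * a, c.E + e, c.T, mul_ne_zero c.F0 h0,
    (totalDegree_mul _ _).trans (add_le_add c.FE ha), fun l hl => (c.TL l hl).ext ha⟩,
    ⟨fun l hl => hl.ext ha, Subset.rfl⟩, rfl, rfl, (io a)⁻¹ • grad (io a),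
    ⟨fun k => c.F * pderiv k a, fun k => (totalDegree_mul _ _).trans
      (add_le_add c.FE ((deg_pderiv k a).trans ha)), fun k => ?_⟩, ?_⟩
  · have := io_ne h0
    simp only [map_mul, Pi.smul_apply, smul_eq_mul, grad_io]
    field_simp
  · rw [smul_inv_smul₀ (io_ne h0), sub_self]
    exact zero_mem _

/-- quotients of polynomials of degree at most `e` -/
def Base (e : ℕ) (v : LL m) : Prop :=
  ∃ a b : RR m, a.totalDegree ≤ e ∧ b.totalDegree ≤ e ∧ v = io a / io b

theorem conv (c : Ctx m) {e : ℕ} {v : LL m} (h : Base e v ∨ Log c v) :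
    ∃ c' : Ctx m, c.le c' ∧ c'.E ≤ c.E + 2 * e ∧ c'.T = c.T ∧ Log c' v := by
  rcases h with ⟨a, b, ha, hb, rfl⟩ | h
  · obtain ⟨c1, h1, h2, h3, h4⟩ := log_poly c ha
    obtain ⟨c2, h5, h6, h7, h8⟩ := log_poly c1 hb
    exact ⟨c2, h1.trans h5, by omega, h7.trans h3, div_eq_mul_inv (io a) (io b) ▸
      (h4.mono h5).mul h8.inv⟩
  · exact ⟨c, c.le_rfl, by omega, rfl, h⟩

theorem deg_det {n E : ℕ} (A : Matrix (Fin n) (Fin n) (RR m)) (h : ∀ i j, (A i j).totalDegree ≤ E) :
    A.det.totalDegree ≤ n * E := by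
  rw [Matrix.det_apply']
  refine totalDegree_finsetSum_le fun σ _ => (totalDegree_mul _ _).trans ?_
  have h1 : (((Equiv.Perm.sign σ : ℤˣ) : ℤ) : RR m).totalDegree = 0 := by
    rw [← map_intCast (C : ℂ →+* RR m), totalDegree_C]
  rw [h1, zero_add]
  exact (totalDegree_finsetProd _ _).trans ((sum_le_card_nsmul _ _ E fun i _ => h _ _).trans
    (by simp))

theorem kernel {ι : Type} [Fintype ι] {E : ℕ} (A : ι → Fin m → RR m) (hι : Fintype.card ι < m)
    (h : ∀ i k, (A i k).totalDegree ≤ E) : ∃ (c : Fin m → RR m) (i : Fin m), c i ≠ 0 ∧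
      (c i).totalDegree ≤ Fintype.card ι * E ∧ ∀ j, ∑ k, A j k * c k = 0 := by
  classical
  let Q : ℕ → Prop := fun n => ∃ (β : Fin n → ι) (γ : Fin n → Fin m),
    (Matrix.of fun a b => A (β a) (γ b)).det ≠ 0
  have hQ : ∀ n, Q n → n ≤ Fintype.card ι := fun n ⟨β, γ, hβ⟩ => by
    have : Function.Injective β := fun a b hab => by
      by_contra hne
      exact hβ (Matrix.det_zero_of_row_eq hne (funext fun r => by simp [hab]))
    simpa using Fintype.card_le_of_injective β this
  have h0 : Q 0 := ⟨Fin.elim0, Fin.elim0, by simp⟩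
  obtain ⟨β, γ, hβ⟩ : Q (Nat.findGreatest Q m) := Nat.findGreatest_spec (Nat.zero_le _) h0
  have hmax : ¬ Q (Nat.findGreatest Q m + 1) := Nat.findGreatest_is_greatest (Nat.lt_succ_self _)
    (by have := hQ _ ⟨β, γ, hβ⟩; omega)
  have hn := hQ _ ⟨β, γ, hβ⟩
  generalize Nat.findGreatest Q m = n at β γ hβ hmax hn
  obtain ⟨i, hi⟩ : ∃ i, i ∉ univ.image γ := by
    by_contra hc
    have := (card_le_card fun x _ => not_not.1 fun hx => hc ⟨x, hx⟩ :
      (univ : Finset (Fin m)).card ≤ (univ.image γ).card).trans card_image_le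
    simp only [card_univ, Fintype.card_fin] at this
    omega
  let γ' : Fin (n + 1) → Fin m := Fin.cons i γ
  let d : Fin (n + 1) → RR m := fun b =>
    (-1) ^ (b : ℕ) * (Matrix.of fun a b' => A (β a) (γ' (b.succAbove b'))).det
  have hd : ∑ b, (if γ' b = i then d b else 0) = (Matrix.of fun a b => A (β a) (γ b)).det := by
    have h1 : ∀ b, ¬ γ b = i := fun b hb => hi (mem_image.2 ⟨b, mem_univ _, hb⟩)
    simp [Fin.sum_univ_succ, d, γ', h1]
  refine ⟨fun k => ∑ b, if γ' b = k then d b else 0, i, by simpa only [hd] using hβ, ?_, fun j => ?_⟩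
  · simp only [hd]
    exact (deg_det _ fun _ _ => h _ _).trans (Nat.mul_le_mul_right _ hn)
  · have h1 := not_not.1 fun h1 => hmax ⟨Fin.cons j β, γ', h1⟩
    rw [Matrix.det_succ_row_zero] at h1
    simp only [mul_sum, mul_ite, mul_zero]
    rw [sum_comm]
    simp only [sum_ite_eq, mem_univ, if_true]
    refine Eq.trans (sum_congr rfl fun b _ => ?_) h1
    simp only [d, Matrix.of_apply, Fin.cons_zero]
    rw [mul_left_comm, ← mul_assoc]
    rfl

/-- the linear form of a hyperplane -/
noncomputable def pi (i : Fin m) (w : ℂ) : RR m := X i - C w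

/-- restriction to a hyperplane -/
noncomputable def res (i : Fin m) (w : ℂ) : RR m →ₐ[ℂ] RR m :=
  aeval (Function.update X i (C w))

theorem dvd_sub_res (i : Fin m) (w : ℂ) (a : RR m) : pi i w ∣ a - res i w a := by
  induction a using MvPolynomial.induction_on with
  | C c => simp [res]
  | add a b ha hb => simpa only [map_add, add_sub_add_comm] using dvd_add ha hb
  | mul_X a j ha =>
    have h1 : pi i w ∣ X j - res i w (X j) := by
      by_cases h : j = i
      · subst h
        simp [res, pi]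
      · simp [res, Function.update_of_ne h]
    rw [map_mul, show a * X j - res i w a * res i w (X j) =
      (a - res i w a) * X j + res i w a * (X j - res i w (X j)) by ring]
    exact dvd_add (ha.mul_right _) (h1.mul_left _)

theorem res_pi (i : Fin m) (w : ℂ) : res i w (pi i w) = 0 := by simp [res, pi]

theorem split (i : Fin m) (w : ℂ) {a : RR m} (ha : a ≠ 0) :
    ∃ n p, res i w p ≠ 0 ∧ a = pi i w ^ n * p := by
  obtain ⟨n, p, h1, h2⟩ := WfDvdMonoid.max_power_factor' ha (a₀ := a) (x := pi i w) fun h =>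
    (h.map (res i w)).ne_zero (res_pi i w)
  exact ⟨n, p, fun h => h1 (by simpa [h] using dvd_sub_res i w p), h2⟩

theorem eval_res (i : Fin m) (w : ℂ) (p : Fin m → ℂ) (a : RR m) :
    eval p (res i w a) = eval (Function.update p i w) a := by
  have : (eval p).comp (res i w).toRingHom = eval (Function.update p i w) :=
    MvPolynomial.ringHom_ext (fun c => by simp [res]) fun j => by
      by_cases h : j = i
      · subst h
        simp [res]
      · simp [res, Function.update_of_ne h]
  exact RingHom.congr_fun this a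

theorem exists_eval {a : RR m} (ha : a ≠ 0) : ∃ p, eval p a ≠ 0 := by
  by_contra h
  exact ha (MvPolynomial.funext fun p => by simpa using not_not.1 fun hp => h ⟨p, hp⟩)

theorem card_le (i : Fin m) {P : RR m} (hP : P ≠ 0) (W : Finset ℂ) (h : ∀ w ∈ W, res i w P = 0) :
    W.card ≤ P.totalDegree := by
  classical
  obtain ⟨p, hp⟩ := exists_eval hP
  let f : Fin m → Polynomial ℂ := Function.update (fun j => Polynomial.C (p j)) i Polynomial.X
  have h1 : ∀ w, (aeval f P).eval w = eval (Function.update p i w) P := fun w => by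
    have : (Polynomial.evalRingHom w).comp (aeval f : RR m →ₐ[ℂ] Polynomial ℂ).toRingHom =
        eval (Function.update p i w) :=
      MvPolynomial.ringHom_ext (fun c => by simp) fun j => by
        by_cases h : j = i
        · subst h
          simp [f]
        · simp [f, Function.update_of_ne h]
    exact RingHom.congr_fun this P
  have h2 : aeval f P ≠ 0 := fun h2 => hp (by simpa [h2] using (h1 (p i)).symm)
  have h3 := aeval_natDegree_le P le_rfl f (n := 1) fun j => by
    by_cases h : j = i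
    · subst h
      simp [f]
    · simp [f, Function.update_of_ne h]
  refine le_trans (Polynomial.card_le_degree_of_subset_roots (p := aeval f P) fun w hw => ?_)
    (by simpa using h3)
  rw [Polynomial.mem_roots h2, Polynomial.IsRoot, h1, ← eval_res, h w hw, map_zero]

theorem grad_pow (v : LL m) (n : ℕ) : v • grad (v ^ n) = ((n : LL m) * v ^ n) • grad v := by
  induction n with
  | zero => simp [grad_one]
  | succ n ih =>
    funext k
    have := congrFun ih k
    simp only [pow_succ, grad_mul, Pi.add_apply, Pi.smul_apply, smul_eq_mul] at this ⊢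
    push_cast
    linear_combination v * this

theorem unit_along (c : Ctx m) (hc : c.T.card < m) : ∃ (i : Fin m) (P : RR m), P ≠ 0 ∧
    P.totalDegree ≤ (c.T.card + 1) * c.E ∧ ∀ w, res i w P ≠ 0 → ∀ v, v ≠ 0 → Log c v →
      ∃ p q, res i w p ≠ 0 ∧ res i w q ≠ 0 ∧ v * io q = io p := by
  classical
  choose A hA hA' using fun l : c.T => c.TL l.1 l.2
  obtain ⟨x, i, h1, h2, h3⟩ := kernel A (by simpa using hc) hA
  refine ⟨i, x i * c.F, mul_ne_zero h1 c.F0, (totalDegree_mul _ _).trans ?_, fun w hw v hv hl => ?_⟩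
  · rw [add_mul, one_mul]
    exact add_le_add (by simpa using h2) c.FE
  let D : (Fin m → LL m) →ₗ[LL m] LL m := ∑ k, io (x k) • LinearMap.proj k
  have hD : ∀ y, D y = ∑ k, io (x k) * y k := fun y => by simp [D, Algebra.smul_def]
  have h4 : Submodule.span (LL m) (c.T : Set (Fin m → LL m)) ≤ LinearMap.ker D :=
    Submodule.span_le.2 fun l hl => by
      refine mul_left_cancel₀ (io_ne c.F0) (show io c.F * D l = io c.F * 0 from ?_)
      have := congrArg io (h3 ⟨l, hl⟩)
      simp only [map_sum, map_mul, ← hA', map_zero] at this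
      rw [hD, mul_sum, mul_zero, ← this]
      exact sum_congr rfl fun k _ => by ring
  obtain ⟨l, ⟨a, -, ha⟩, h5⟩ := hl
  have h6 : io c.F * D (grad v) = v * io (∑ k, x k * a k) := by
    have := h4 h5
    rw [LinearMap.mem_ker, map_sub, map_smul, sub_eq_zero] at this
    rw [this, hD, smul_eq_mul, mul_left_comm, mul_sum, map_sum]
    exact congrArg _ (sum_congr rfl fun k _ => by rw [map_mul, ← ha]; ring)
  have h7 : ∀ b : RR m, D (grad (io b)) = io (∑ k, x k * pderiv k b) := fun b => by
    simp [hD, grad_io]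
  have h8 : D (grad (io (pi i w))) = io (x i) := by
    rw [h7]
    simp [pi, pderiv_X, Pi.single_apply]
  obtain ⟨a0, b0, hb0, rfl⟩ := IsFractionRing.div_surjective (A := RR m) v
  have hb := nonZeroDivisors.ne_zero hb0
  have ha0 : a0 ≠ 0 := fun h => hv (by simp [h])
  obtain ⟨n, p, hp, rfl⟩ := split i w ha0
  obtain ⟨n', q, hq, rfl⟩ := split i w hb
  have hπ : io (pi i w) ≠ 0 := io_ne fun h => by
    simpa [pi, pderiv_X] using congrArg (pderiv i) h
  have hq0 : io q ≠ 0 := io_ne fun h => hq (by simp [h])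
  suffices n = n' by
    subst this
    refine ⟨p, q, hp, hq, ?_⟩
    simp only [map_mul, map_pow]
    field_simp
  set u := algebraMap (RR m) (LL m) (pi i w ^ n * p) / algebraMap (RR m) (LL m) (pi i w ^ n' * q)
    with hu
  have e1 : u * (io (pi i w) ^ n' * io q) = io (pi i w) ^ n * io p := by
    simp only [hu, map_mul, map_pow]
    field_simp
  have e2 := congrArg (fun y => D (grad y)) e1
  have e3 := congrArg D (grad_pow (io (pi i w)) n)
  have e4 := congrArg D (grad_pow (io (pi i w)) n')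
  simp only [grad_mul, map_add, map_smul, smul_eq_mul, h8, h7 p, h7 q] at e2 e3 e4
  have e5 : io (((n : RR m) - (n' : RR m)) * (x i * c.F) * p * q) = io (pi i w * (p * q * ∑ k, x k * a k +
      c.F * (p * ∑ k, x k * pderiv k q - q * ∑ k, x k * pderiv k p))) := by
    refine mul_left_cancel₀ (pow_ne_zero n hπ) ?_
    simp only [map_mul, map_add, map_sub, map_natCast]
    generalize io (∑ k, x k * a k) = s1 at *
    generalize io (∑ k, x k * pderiv k q) = s2 at *
    generalize io (∑ k, x k * pderiv k p) = s3 at *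
    linear_combination (-(io (pi i w) * io c.F * io q)) * e2 - (io c.F * io p * io q) * e3 +
      (u * io q * io c.F * io q) * e4 + (io (pi i w) * io (pi i w) ^ n' * io q * io q) * h6 +
      (io (pi i w) * io q * s1 + io (pi i w) * io c.F * s2 + n' * io (x i) * io c.F * io q) * e1
  have e6 := congrArg (res i w) (io_inj e5)
  rw [map_mul (res i w) (pi i w), res_pi, zero_mul, map_mul, map_mul, map_mul] at e6
  have e7 := ((mul_eq_zero.1 ((mul_eq_zero.1 ((mul_eq_zero.1 e6).resolve_right hq)).resolve_right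
    hp)).resolve_right hw)
  rw [map_sub, map_natCast, map_natCast, sub_eq_zero] at e7
  exact_mod_cast e7

end Pool.Agent.MP_57f271_lc.H7
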