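import Pool.Agent.MP_57f271_lc.H7.Defs
import Pool.Agent.MP_57f271_lc.H7.Alg
import Pool.Agent.MP_57f271_lc.H18.Splice

namespace Pool.Agent.MP_57f271_lc.H7

open Pool.Agent.MP_57f271_lc.H18 MvPolynomial
open Function hiding eval

section Rel

variable {P B : Type} [CommRing P] [Field B] {φ : P →+* B}

/-- `z` is the value of the fraction `v` under `φ` -/
def Rel (φ : P →+* B) (v : FractionRing P) (z : B) : Prop :=
  ∃ a b, φ b ≠ 0 ∧ v * algebraMap P _ b = algebraMap P _ a ∧ z * φ b = φ a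

theorem Rel.of (a : P) : Rel φ (algebraMap P _ a) (φ a) := ⟨a, 1, by simp, by simp, by simp⟩

theorem Rel.add {u v : FractionRing P} {y z : B} (h : Rel φ u y) (h' : Rel φ v z) :
    Rel φ (u + v) (y + z) := by
  obtain ⟨a, b, h1, h2, h3⟩ := h
  obtain ⟨c, d, h4, h5, h6⟩ := h'
  refine ⟨a * d + c * b, b * d, by simp [h1, h4], ?_, ?_⟩
  · simp only [map_add, map_mul, ← h2, ← h5]; ring
  · simp only [map_add, map_mul, ← h3, ← h6]; ring

theorem Rel.mul {u v : FractionRing P} {y z : B} (h : Rel φ u y) (h' : Rel φ v z) :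
    Rel φ (u * v) (y * z) := by
  obtain ⟨a, b, h1, h2, h3⟩ := h
  obtain ⟨c, d, h4, h5, h6⟩ := h'
  refine ⟨a * c, b * d, by simp [h1, h4], ?_, ?_⟩
  · simp only [map_mul, ← h2, ← h5]; ring
  · simp only [map_mul, ← h3, ← h6]; ring

theorem Rel.sub [IsDomain P] {u v : FractionRing P} {y z : B} (h : Rel φ u y) (h' : Rel φ v z) :
    Rel φ (u - v) (y - z) := by
  simpa [sub_eq_add_neg] using h.add ((Rel.of (-1)).mul h')

theorem Rel.zero {u : FractionRing P} {y : B} (h : Rel φ u y) (h0 : u = 0) : y = 0 := by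
  obtain ⟨a, b, h1, h2, h3⟩ := h
  rw [h0, zero_mul, eq_comm, map_eq_zero_iff _ (IsFractionRing.injective _ _)] at h2
  simpa [h2, h1] using h3

theorem Rel.inv [IsDomain P] {u : FractionRing P} {y : B} (h : Rel φ u y) (h0 : y ≠ 0) : Rel φ u⁻¹ y⁻¹ := by
  have h4 : u ≠ 0 := fun h4 => h0 (h.zero h4)
  obtain ⟨a, b, h1, h2, h3⟩ := h
  exact ⟨b, a, h3 ▸ mul_ne_zero h0 h1, by rw [← h2]; field_simp, by rw [← h3]; field_simp⟩

theorem Rel.ne {u : FractionRing P} {y : B} (h : Rel φ u y) {p q : P} (hp : φ p ≠ 0)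
    (h0 : u * algebraMap P _ q = algebraMap P _ p) : y ≠ 0 := by
  rintro rfl
  obtain ⟨a, b, h1, h2, h3⟩ := h
  have h4 : p * b = a * q := IsFractionRing.injective P (FractionRing P) (by
    simp only [map_mul, ← h2, ← h0]; ring)
  have h5 := congrArg φ h4
  rw [map_mul, map_mul, ← h3, zero_mul, zero_mul] at h5
  exact mul_ne_zero hp h1 h5

/-- the entry that is tested or divided by -/
def cr {Q : Type} : Instr Q → ℤ
  | .arith _ _ j _ _ => j
  | .branch i _ _ => i
  | _ => 0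

theorem rel_step [IsDomain P] {Q : Type} (κ : ℂ → P) (I : Instr Q) {x y : ℤ → ℂ} {v : ℤ → FractionRing P}
    {z : ℤ → B} (h : ∀ n, Rel φ (v n) (z n)) (hx : x (cr I) = 0 ↔ z (cr I) = 0)
    (hy : y (cr I) = 0 ↔ z (cr I) = 0) (n : ℤ) :
    Rel φ (symStep (fun c => algebraMap P _ (κ c)) I x v n) (symStep (fun c => φ (κ c)) I y z n) := by
  have upd : ∀ k a b, Rel φ a b → Rel φ (update v k a n) (update z k b n) := fun k a b hx => by
    by_cases hn : n = k
    · subst hn
      rwa [update_self, update_self]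
    · rw [update_of_ne hn, update_of_ne hn]
      exact h n
  rcases I with ⟨o, i, j, k, q⟩ | ⟨a, i, k, q⟩ | ⟨a, k, q⟩ | ⟨l, q⟩ | ⟨i, y, n⟩ | b <;>
    simp only [symStep, cr] at hx hy ⊢
  · refine upd _ _ _ ?_
    cases o <;> simp only [symOp]
    exacts [(h i).add (h j), (h i).sub (h j), (h i).mul (h j), by
      by_cases h0 : z j = 0
      · simpa [hx.2 h0, hy.2 h0] using Rel.of (φ := φ) 0
      · rw [if_neg (hx.not.2 h0), if_neg (hy.not.2 h0), div_eq_mul_inv, div_eq_mul_inv]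
        exact (h i).mul ((h j).inv h0)]
  · exact upd _ _ _ ((Rel.of _).mul (h i))
  · exact upd _ _ _ (Rel.of _)
  all_goals exact h _

end Rel

theorem step_snd (M : Machine) (c : Fin M.m × (ℤ → ℂ)) :
    (M.step c).2 = symStep (fun a => a) (M.instr c.1) c.2 c.2 := by
  unfold Machine.step
  rcases M.instr c.1 with ⟨o, i, j, k, q⟩ | ⟨a, i, k, q⟩ | ⟨a, k, q⟩ | ⟨l, q⟩ | ⟨i, y, n⟩ | b <;>
    simp only [symStep]
  cases o <;> simp only [symOp, Op.eval]
  split_ifs with h
  · rw [h, div_zero]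
  · rfl

theorem step_fst (M : Machine) (q : Fin M.m) {x y : ℤ → ℂ}
    (h : x (cr (M.instr q)) = 0 ↔ y (cr (M.instr q)) = 0) :
    (M.step (q, x)).1 = (M.step (q, y)).1 := by
  unfold Machine.step
  rcases hI : M.instr q with ⟨o, i, j, k, q⟩ | ⟨a, i, k, q⟩ | ⟨a, k, q⟩ | ⟨l, q⟩ | ⟨i, y, n⟩ | b <;>
    simp only [hI, cr] at h ⊢
  simp only [h]

variable {m : ℕ}

open Classical in
noncomputable def ind (u : ℤ → LL m) : ℤ → ℂ := fun j => if u j = 0 then 0 else 1

theorem ind_iff (u : ℤ → LL m) (j : ℤ) : ind u j = 0 ↔ u j = 0 := by simp [ind]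

/-- the generic run -/
noncomputable def stepL (M : Machine) (c : Fin M.m × (ℤ → LL m)) : Fin M.m × (ℤ → LL m) :=
  ((M.step (c.1, ind c.2)).1, symStep (fun a => io (C a)) (M.instr c.1) (ind c.2) c.2)

/-- the critical value at step `s` -/
noncomputable def crit (M : Machine) (c : Fin M.m × (ℤ → LL m)) (s : ℕ) : LL m :=
  ((stepL M)^[s] c).2 (cr (M.instr ((stepL M)^[s] c).1))

theorem run_rel (M : Machine) (p : Fin m → ℂ) {u : ℤ → LL m} {x : ℤ → ℂ}
    (h : ∀ n, Rel (eval p) (u n) (x n)) (t : ℕ) (hg : ∀ s < t, crit M (M.start, u) s ≠ 0 →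
      ∃ a b, eval p a ≠ 0 ∧ crit M (M.start, u) s * io b = io a) :
    (M.step^[t] (M.start, x)).1 = ((stepL M)^[t] (M.start, u)).1 ∧
      ∀ n, Rel (eval p) (((stepL M)^[t] (M.start, u)).2 n) ((M.step^[t] (M.start, x)).2 n) := by
  induction t with
  | zero => exact ⟨rfl, h⟩
  | succ t ih =>
    obtain ⟨h1, h2⟩ := ih fun s hs => hg s (by omega)
    have h3 := hg t (by omega)
    rw [iterate_succ_apply', iterate_succ_apply']
    unfold crit at h3
    generalize (stepL M)^[t] (M.start, u) = c at h1 h2 h3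
    generalize M.step^[t] (M.start, x) = d at h1 h2
    obtain ⟨q, z⟩ := d
    obtain rfl : q = c.1 := h1
    have h4 : ind c.2 (cr (M.instr c.1)) = 0 ↔ z (cr (M.instr c.1)) = 0 :=
      (ind_iff _ _).trans ⟨(h2 _).zero, fun h => by
        by_contra h5
        obtain ⟨a, b, h6, h7⟩ := h3 h5
        exact (h2 _).ne h6 h7 h⟩
    refine ⟨step_fst M _ h4.symm, fun n => ?_⟩
    have := rel_step (φ := eval p) C (M.instr c.1) h2 h4 Iff.rfl n
    simp only [eval_C] at this
    rwa [step_snd]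

/-- additions have a result of low degree -/
def LowRes {Q : Type} (e : ℕ) : Instr Q → (ℤ → LL m) → Prop
  | .arith .add i j _ _, v => Base e (v i + v j)
  | .arith .sub i j _ _, v => Base e (v i - v j)
  | _, _ => True

theorem step_log {Q : Type} (I : Instr Q) (x : ℤ → ℂ) {u : ℤ → LL m} {c : Ctx m} {e : ℕ}
    (h : ∀ n, Base e (u n) ∨ Log c (u n)) : ∃ c' : Ctx m, c.le c' ∧ c'.E ≤ c.E + 4 * e ∧
      c'.T.card ≤ c.T.card + 1 ∧ (LowRes e I u → c'.T.card ≤ c.T.card) ∧ Log c' (u (cr I)) ∧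
      ∀ n, Base e (symStep (fun a => io (C a)) I x u n) ∨
        Log c' (symStep (fun a => io (C a)) I x u n) := by
  obtain ⟨c1, a1, a2, a3, a4⟩ := conv c (h I.r1)
  obtain ⟨c2, b1, b2, b3, b4⟩ := conv c1 ((h (cr I)).imp_right (Log.mono a1))
  have h1 := a1.trans b1
  have h2 := a4.mono b1
  have hE : c2.E ≤ c.E + 4 * e := by omega
  have hT : c2.T.card = c.T.card := by rw [b3, a3]
  have upd : ∀ c' : Ctx m, c.le c' → ∀ k a, (Base e a ∨ Log c' a) → ∀ n,
      Base e (update u k a n) ∨ Log c' (update u k a n) := fun c' hc k a hx n => by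
    by_cases hn : n = k
    · subst hn
      rwa [update_self]
    · rw [update_of_ne hn]
      exact (h n).imp_right (Log.mono hc)
  have fin : (∀ n, Base e (symStep (fun a => io (C a)) I x u n) ∨
      Log c2 (symStep (fun a => io (C a)) I x u n)) → ∃ c' : Ctx m, c.le c' ∧ c'.E ≤ c.E + 4 * e ∧
      c'.T.card ≤ c.T.card + 1 ∧ (LowRes e I u → c'.T.card ≤ c.T.card) ∧ Log c' (u (cr I)) ∧
      ∀ n, Base e (symStep (fun a => io (C a)) I x u n) ∨
        Log c' (symStep (fun a => io (C a)) I x u n) := fun h3 =>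
    ⟨c2, h1, hE, by omega, fun _ => hT.le, b4, h3⟩
  have h0 := fun n => (h n).imp_right (Log.mono h1)
  rcases I with ⟨o, i, j, k, q⟩ | ⟨a, i, k, q⟩ | ⟨a, k, q⟩ | ⟨l, q⟩ | ⟨i, y, n⟩ | b
  · cases o
    · by_cases hl : Base e (u i + u j)
      · exact fin (upd c2 h1 _ _ (.inl hl))
      · obtain ⟨c3, d1, d2, d3, d4⟩ := h2.add b4
        exact ⟨c3, h1.trans d1, by omega, by omega, fun h => absurd h hl, b4.mono d1,
          upd c3 (h1.trans d1) _ _ (.inr d4)⟩
    · by_cases hl : Base e (u i - u j)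
      · exact fin (upd c2 h1 _ _ (.inl hl))
      · obtain ⟨c3, d1, d2, d3, d4⟩ := h2.add ((Log.C c2 (-1)).mul b4)
        refine ⟨c3, h1.trans d1, by omega, by omega, fun h => absurd h hl, b4.mono d1,
          upd c3 (h1.trans d1) _ _ (.inr ?_)⟩
        simpa [symOp, sub_eq_add_neg, Instr.r1, cr] using d4
    · exact fin (upd c2 h1 _ _ (.inr (h2.mul b4)))
    · refine fin (upd c2 h1 _ _ (.inr ?_))
      simp only [symOp]
      split_ifs
      · simpa using Log.C c2 0
      · exact div_eq_mul_inv (u i) (u j) ▸ h2.mul b4.inv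
  · exact fin (upd c2 h1 _ _ (.inr ((Log.C c2 a).mul h2)))
  · exact fin (upd c2 h1 _ _ (.inr (Log.C c2 a)))
  all_goals exact fin fun _ => h0 _

open Classical in
theorem run_log (M : Machine) (c0 : Fin M.m × (ℤ → LL m)) {e : ℕ} (h : ∀ n, Base e (c0.2 n))
    (t : ℕ) : ∃ c : Ctx m, c.E ≤ 4 * e * t ∧ c.T.card ≤ ((Finset.range t).filter fun i =>
      ¬ LowRes e (M.instr ((stepL M)^[i] c0).1) ((stepL M)^[i] c0).2).card ∧
      (∀ s < t, Log c (crit M c0 s)) ∧
      ∀ n, Base e (((stepL M)^[t] c0).2 n) ∨ Log c (((stepL M)^[t] c0).2 n) := by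
  induction t with
  | zero => exact ⟨⟨1, 0, ∅, one_ne_zero, by simp, by simp⟩, le_rfl, by simp, by simp,
      fun n => .inl (h n)⟩
  | succ t ih =>
    obtain ⟨c, h1, h2, h3, h4⟩ := ih
    obtain ⟨c', a1, a2, a3, a4, a5, a6⟩ := step_log (M.instr ((stepL M)^[t] c0).1)
      (ind ((stepL M)^[t] c0).2) h4
    refine ⟨c', by rw [mul_add]; omega, ?_, fun s hs => ?_, by rwa [iterate_succ_apply']⟩
    · rw [Finset.range_add_one, Finset.filter_insert]
      split_ifs with h5
      · exact (a4 h5).trans h2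
      · rw [Finset.card_insert_of_notMem (by simp)]
        omega
    · rcases Nat.lt_succ_iff_lt_or_eq.1 hs with hs | rfl
      exacts [(h3 s hs).mono a1, a5]

theorem deg_aeval {σ : Type} {f : σ → RR m} {e : ℕ} (hf : ∀ s, (f s).totalDegree ≤ e)
    (a : MvPolynomial σ ℂ) : (aeval f a).totalDegree ≤ e * a.totalDegree := by
  conv_lhs => rw [a.as_sum, map_sum]
  refine totalDegree_finsetSum_le fun s hs => ?_
  rw [aeval_monomial]
  refine (totalDegree_mul _ _).trans ?_
  rw [algebraMap_eq, totalDegree_C, zero_add]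
  refine (totalDegree_finsetProd _ _).trans (le_trans ?_ (Nat.mul_le_mul_left e (le_totalDegree hs)))
  rw [Finsupp.sum, Finset.mul_sum]
  exact Finset.sum_le_sum fun i _ => (totalDegree_pow _ _).trans
    (by rw [mul_comm]; exact Nat.mul_le_mul_right _ (hf i))

theorem base_of_low {σ : Type} {f : σ → RR m} {e D : ℕ} (hf : ∀ s, (f s).totalDegree ≤ e)
    {v : FractionRing (MvPolynomial σ ℂ)} {z : LL m}
    (h : Rel (io.comp (aeval f : MvPolynomial σ ℂ →ₐ[ℂ] RR m).toRingHom) v z) (hv : LowDeg D v) :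
    Base (e * (D + 1)) z := by
  obtain ⟨a, b, h1, h2, h3, rfl⟩ := hv
  unfold toFrac at h
  rcases eq_or_ne a 0 with rfl | h0
  · exact ⟨0, 1, by simp, by simp, by simpa using h.zero (by simp)⟩
  obtain ⟨a', b', h4, h5, h6⟩ := h
  obtain ⟨b1, a1, g, h7, rfl, rfl⟩ := UniqueFactorizationMonoid.exists_reduced_factors b h1 a
  have inj := IsFractionRing.injective (MvPolynomial σ ℂ) (FractionRing (MvPolynomial σ ℂ))
  have h8 : a1 * b' = a' * b1 := mul_left_cancel₀ (left_ne_zero_of_mul h1) (inj (by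
    have := (map_ne_zero_iff _ inj).2 h1
    rw [div_mul_eq_mul_div, div_eq_iff this] at h5
    simp only [map_mul] at h5 ⊢
    linear_combination h5))
  obtain ⟨k, rfl⟩ : b1 ∣ b' := h7.dvd_of_dvd_mul_left (h8 ▸ dvd_mul_left _ _)
  have d : ∀ y : MvPolynomial σ ℂ, g * y ≠ 0 → (g * y).totalDegree ≤ D →
      (aeval f y).totalDegree ≤ e * (D + 1) := fun y y0 hy => (deg_aeval hf y).trans
    (Nat.mul_le_mul_left _ (((totalDegree_le_of_dvd_of_isDomain (dvd_mul_left _ _) y0).trans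
      hy).trans (by omega)))
  refine ⟨_, _, d a1 h0 h2, d b1 h1 h3, ?_⟩
  have h9 := congrArg (io.comp (aeval f : MvPolynomial σ ℂ →ₐ[ℂ] RR m).toRingHom) h8
  rw [map_mul] at h4
  rw [map_mul, map_mul, map_mul, ← h6, map_mul] at h9
  exact (eq_div_iff (left_ne_zero_of_mul h4)).2 (mul_right_cancel₀ h4 (by
    refine Eq.trans ?_ h9.symm
    ring))

end Pool.Agent.MP_57f271_lc.H7
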