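import Pool.Agent.MP_57f271_lc.H27.Defs

namespace Pool.Agent.MP_57f271_lc.H7

open Pool.Agent.MP_57f271_lc.H18

open Classical in
/-- An operation on symbolic values; `z` is the numerical value of the second operand, and a
division by the number `0` gives `0`, as in the numerical run. -/
noncomputable def symOp {K : Type} [Field K] : Op → ℂ → K → K → K
  | .add, _, a, b => a + b
  | .sub, _, a, b => a - b
  | .mul, _, a, b => a * b
  | .div, z, a, b => if z = 0 then 0 else a / b

/-- The effect of an instruction, executed on the numerical state `x`, on the symbolic state. -/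
noncomputable def symStep {K Q : Type} [Field K] (κ : ℂ → K) :
    Instr Q → (ℤ → ℂ) → (ℤ → K) → ℤ → K
  | .arith o i j k _, x, v => Function.update v k (symOp o (x j) (v i) (v j))
  | .scale c i k _, _, v => Function.update v k (κ c * v i)
  | .const c k _, _, v => Function.update v k (κ c)
  | .shift left _, _, v => fun i => v (if left then i + 1 else i - 1)
  | _, _, v => v

/-- A polynomial as a rational function. -/
noncomputable def toFrac {σ : Type} (a : MvPolynomial σ ℂ) : FractionRing (MvPolynomial σ ℂ) :=
  algebraMap (MvPolynomial σ ℂ) _ a

/-- The symbolic initial state: the indeterminate `s` in entry `g s`, the number `r j` elsewhere. -/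
noncomputable def symInit {σ : Type} (g : σ → ℤ) (r : ℤ → ℕ) :
    ℤ → FractionRing (MvPolynomial σ ℂ) :=
  Function.extend g (fun s => toFrac (MvPolynomial.X s)) fun j => toFrac (MvPolynomial.C (r j))

/-- The symbolic state after `t` steps along the path of the numerical initial state `x`. -/
noncomputable def symRun {σ : Type} (M : Machine) (x : ℤ → ℂ)
    (v : ℤ → FractionRing (MvPolynomial σ ℂ)) : ℕ → ℤ → FractionRing (MvPolynomial σ ℂ)
  | 0 => v
  | t + 1 => symStep (fun c => toFrac (MvPolynomial.C c)) (M.instr (M.step^[t] (M.start, x)).1)
      (M.step^[t] (M.start, x)).2 (symRun M x v t)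

/-- The entries after `t` steps on the system `S`, as rational functions of the coefficients
(one indeterminate for each coefficient), along the path that `S` takes. -/
noncomputable def sym (M : Machine) (E : Encoding) (S : System) :
    ℕ → ℤ → FractionRing (MvPolynomial (Slot S.n S.k S.deg) ℂ) :=
  symRun M (E.state S) (symInit (E.pos S.n S.k S.deg) (E.rest S.n S.k S.deg))

/-- A quotient of two polynomials of total degree at most `D`. -/
def LowDeg {σ : Type} (D : ℕ) (v : FractionRing (MvPolynomial σ ℂ)) : Prop :=
  ∃ a b : MvPolynomial σ ℂ, b ≠ 0 ∧ a.totalDegree ≤ D ∧ b.totalDegree ≤ D ∧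
    v = toFrac a / toFrac b

/-- The instruction is an addition or subtraction whose result has degree more than `D`. -/
def HighAdd {σ Q : Type} (D : ℕ) : Instr Q → (ℤ → FractionRing (MvPolynomial σ ℂ)) → Prop
  | .arith .add i j _ _, v => ¬ LowDeg D (v i + v j)
  | .arith .sub i j _ _, v => ¬ LowDeg D (v i - v j)
  | _, _ => False

/-- The number of additions and subtractions with a result of degree more than `D` among the
first `t` steps on the system `S`. -/
noncomputable def highAdds (M : Machine) (E : Encoding) (S : System) (D t : ℕ) : ℕ :=
  Set.ncard {i | i < t ∧ HighAdd D (M.instr (M.step^[i] (M.start, E.state S)).1) (sym M E S i)}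

end Pool.Agent.MP_57f271_lc.H7
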