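import Pool.Agent.MP_57f271_lc.H7.Run

namespace Pool.Agent.MP_57f271_lc.H7

open Pool.Agent.MP_57f271_lc.H18 MvPolynomial Finset

theorem mon_surj (n d : ℕ) (e : Fin n →₀ ℕ) (he : e.degree ≤ d) :
    ∃ f : Fin d → Option (Fin n), e = ∑ j, (f j).elim 0 fun i => Finsupp.single i 1 := by
  induction d generalizing e with
  | zero => exact ⟨Fin.elim0, by simpa [Finsupp.degree_eq_zero_iff] using he⟩
  | succ d ih =>
    rcases eq_or_ne e 0 with rfl | h0
    · exact ⟨fun _ => none, by simp⟩
    obtain ⟨i, hi⟩ := Finsupp.ne_iff.1 h0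
    have h1 : Finsupp.single i 1 + (e - Finsupp.single i 1) = e :=
      add_tsub_cancel_of_le (Finsupp.single_le_iff.2 (Nat.pos_of_ne_zero hi))
    obtain ⟨f, hf⟩ := ih (e - Finsupp.single i 1) (by
      have := congrArg Finsupp.degree h1
      rw [map_add, Finsupp.degree_single] at this
      omega)
    exact ⟨Fin.cons (some i) f, by simp [Fin.sum_univ_succ, ← hf, h1]⟩

theorem card_mon (n d : ℕ) : Finite {e : Fin n →₀ ℕ // e.degree ≤ d} ∧
    Nat.card {e : Fin n →₀ ℕ // e.degree ≤ d} ≤ (n + 1) ^ d := by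
  choose f hf using fun e : {e : Fin n →₀ ℕ // e.degree ≤ d} => mon_surj n d e.1 e.2
  have h : Function.Injective f := fun a b h => Subtype.ext (by rw [hf a, hf b, h])
  exact ⟨.of_injective f h, (Nat.card_le_card_of_injective f h).trans (by simp)⟩

theorem card_slot {n : ℕ} {d : Fin (n + 1) → ℕ} (h0 : d 0 ≤ 3) (h : ∀ i : Fin n, d i.succ ≤ 2) :
    n + 1 ≤ Nat.card (Slot n (n + 1) d) ∧ Nat.card (Slot n (n + 1) d) ≤ 2 * (n + 1) ^ 3 := by
  have := fun d => (card_mon n d).1
  have h1 : Nat.card (Slot n (n + 1) d) = ∑ i, Nat.card {e : Fin n →₀ ℕ // e.degree ≤ d i} :=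
    Nat.card_sigma
  rw [h1]
  refine ⟨le_trans (by simp) (card_nsmul_le_sum univ _ 1 fun i _ => ?_), ?_⟩
  · have : Nonempty {e : Fin n →₀ ℕ // e.degree ≤ d i} := ⟨⟨0, by simp⟩⟩
    exact Nat.card_pos
  · rw [Fin.sum_univ_succ]
    have h2 := (card_mon n (d 0)).2.trans (Nat.pow_le_pow_right (by omega) h0)
    have h3 := sum_le_card_nsmul univ _ ((n + 1) ^ 2) fun i _ =>
      (card_mon n (d (Fin.succ i))).2.trans (Nat.pow_le_pow_right (by omega) (h i))
    simp only [card_univ, Fintype.card_fin, smul_eq_mul] at h3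
    nlinarith

theorem deg_coeff_prod {m : ℕ} (s : Finset (Fin m)) (j : ℕ) :
    ((∏ i ∈ s, (Polynomial.X - Polynomial.C (X i : RR m))).coeff j).totalDegree ≤ s.card := by
  induction s using Finset.induction_on generalizing j with
  | empty => rw [prod_empty, Polynomial.coeff_one]; split_ifs <;> simp
  | insert a s ha ih =>
    rw [prod_insert ha, card_insert_of_notMem ha, sub_mul, Polynomial.coeff_sub,
      Polynomial.coeff_C_mul]
    refine (totalDegree_sub _ _).trans (max_le ?_ ((totalDegree_mul _ _).trans ?_))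
    · rcases j with _ | j
      · simp
      · rw [Polynomial.coeff_X_mul]
        exact (ih j).trans (by omega)
    · have := ih j
      rw [totalDegree_X]
      omega

variable (K : ℕ)

abbrev Var : Type := Fin 4 × Fin (K + 1)

/-- the second factor in the chain equations -/
def yy : Fin 4 → Fin K → Var K :=
  ![fun _ => (3, 0), fun _ => (0, Fin.last K), fun _ => (1, Fin.last K), fun i => (3, i.castSucc)]

def ex (v : Var K) : ℕ := if v.1 = 3 then 2 ^ v.2.1 else v.2.1 * K ^ v.1.1

noncomputable def xx (R : Type) [CommRing R] (v : Var K) : MvPolynomial (Fin (4 * (K + 1))) R :=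
  X (finProdFinEquiv v)

noncomputable def eqn (v : Var K) : MvPolynomial (Fin (4 * (K + 1))) ℂ :=
  Fin.cases (motive := fun _ => MvPolynomial (Fin (4 * (K + 1))) ℂ)
    (xx K ℂ (v.1, if v.1 = 3 then Fin.last K else 0) - 1)
    (fun i => xx K ℂ (v.1, i.succ) - xx K ℂ (v.1, i.castSucc) * xx K ℂ (yy K v.1 i)) v.2

theorem eqn_deg (v : Var K) : (eqn K v).totalDegree ≤ 2 := by
  obtain ⟨g, i⟩ := v
  refine Fin.cases ?_ (fun i => ?_) i <;> simp only [eqn, Fin.cases_zero, Fin.cases_succ, xx]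
  · exact (totalDegree_sub _ _).trans (by simp)
  · exact (totalDegree_sub _ _).trans (max_le (by simp) ((totalDegree_mul _ _).trans (by simp)))

theorem eqn_iff (z : Fin (4 * (K + 1)) → ℂ) : (∀ v, eval z (eqn K v) = 0) ↔
    ∃ w : ℂ, w ^ 2 ^ K = 1 ∧ ∀ v, z (finProdFinEquiv v) = w ^ ex K v := by
  have h0 : (∀ v, eval z (eqn K v) = 0) ↔ ∀ g : Fin 4,
      z (finProdFinEquiv (g, if g = 3 then Fin.last K else 0)) = 1 ∧ ∀ i : Fin K,
        z (finProdFinEquiv (g, i.succ)) =
          z (finProdFinEquiv (g, i.castSucc)) * z (finProdFinEquiv (yy K g i)) := by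
    simp only [Prod.forall, Fin.forall_fin_succ (n := K), eqn, Fin.cases_zero, Fin.cases_succ, xx,
      map_sub, map_mul, eval_X, map_one, sub_eq_zero]
  rw [h0]
  constructor
  · intro h
    obtain ⟨w, hw⟩ : ∃ w, z (finProdFinEquiv ((3 : Fin 4), (0 : Fin (K + 1)))) = w := ⟨_, rfl⟩
    have h3 : ∀ i, z (finProdFinEquiv ((3 : Fin 4), i)) = w ^ 2 ^ i.1 := fun i => by
      induction i using Fin.induction with
      | zero => simpa using hw
      | succ i ih =>
        rw [(h 3).2 i]
        simp only [yy, Matrix.cons_val, ih, Fin.val_succ, Fin.val_castSucc]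
        ring
    have h4 : ∀ (g : Fin 4) (y : ℂ), g ≠ 3 → (∀ i, z (finProdFinEquiv (yy K g i)) = y) →
        ∀ i, z (finProdFinEquiv (g, i)) = y ^ i.1 := fun g y hg hy i => by
      induction i using Fin.induction with
      | zero => simpa [hg] using (h g).1
      | succ i ih => rw [(h g).2 i, ih, hy, Fin.val_succ, Fin.val_castSucc, pow_succ]
    have a0 := h4 0 w (by decide) fun _ => hw
    have a1 := h4 1 _ (by decide) fun _ => a0 (Fin.last K)
    have a2 := h4 2 _ (by decide) fun _ => a1 (Fin.last K)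
    refine ⟨w, by simpa [h3 (Fin.last K)] using (h 3).1, fun ⟨g, i⟩ => ?_⟩
    fin_cases g
    · simpa [ex] using a0 i
    · simpa [ex, ← pow_mul, mul_comm] using a1 i
    · simpa [ex, ← pow_mul, mul_comm, sq] using a2 i
    · simpa [ex] using h3 i
  · rintro ⟨w, h1, h2⟩ g
    simp only [h2, ← pow_add]
    fin_cases g
    · exact ⟨by simp [ex], fun i => by simp [ex, yy]⟩
    · exact ⟨by simp [ex], fun i => by simp [ex, yy, add_mul]⟩
    · exact ⟨by simp [ex], fun i => by simp [ex, yy, add_mul, sq]⟩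
    · exact ⟨by simpa [ex] using h1, fun i => by simp [ex, yy, pow_succ, mul_two]⟩

/-- the cubic form whose value at the powers of `w` is `q(w)` -/
noncomputable def cub {R : Type} [CommRing R] (q : Polynomial R) :
    MvPolynomial (Fin (4 * (K + 1))) R :=
  ∑ f : Fin 3 → Fin K, C (q.coeff (finFunctionFinEquiv f)) *
    ∏ g : Fin 3, xx K R (g.castSucc, (f g).castSucc)

theorem map_cub {R S : Type} [CommRing R] [CommRing S] (φ : R →+* S) (q : Polynomial R) :
    map φ (cub K q) = cub K (q.map φ) := by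
  simp [cub, xx]

theorem cub_hom (q : Polynomial ℂ) : (cub K q).IsHomogeneous 3 :=
  IsHomogeneous.sum _ _ _ fun f _ => by
    simpa using (IsHomogeneous.prod univ (fun g : Fin 3 => xx K ℂ (g.castSucc, (f g).castSucc))
      (fun _ => 1) fun g _ => isHomogeneous_X _ _).C_mul _

theorem eval_cub (q : Polynomial ℂ) (hq : q.natDegree < K ^ 3) (w : ℂ)
    (z : Fin (4 * (K + 1)) → ℂ) (h : ∀ v, z (finProdFinEquiv v) = w ^ ex K v) :
    eval z (cub K q) = q.eval w := by
  rw [Polynomial.eval_eq_sum_range' hq, sum_range, ← finFunctionFinEquiv.sum_comp]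
  simp only [cub, map_sum, map_mul, eval_C, map_prod, xx, eval_X, h, prod_pow_eq_pow_sum]
  refine sum_congr rfl fun f _ => ?_
  refine congrArg (fun e => q.coeff (finFunctionFinEquiv f) * w ^ e) ?_
  rw [finFunctionFinEquiv_apply]
  exact sum_congr rfl fun g _ => by simp [ex, show g.castSucc ≠ 3 from Fin.castSucc_ne_last g]

theorem coeff_cub {m : ℕ} (q : Polynomial (RR m)) {e : ℕ} (hq : ∀ j, (q.coeff j).totalDegree ≤ e)
    (μ : Fin (4 * (K + 1)) →₀ ℕ) : ((cub K q).coeff μ).totalDegree ≤ e := by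
  rw [cub, coeff_sum]
  refine totalDegree_finsetSum_le fun f _ => ?_
  rw [coeff_C_mul, show ∏ g : Fin 3, xx K (RR m) (g.castSucc, (f g).castSucc) =
    map C (∏ g : Fin 3, xx K ℂ (g.castSucc, (f g).castSucc)) by simp [xx], coeff_map]
  exact (totalDegree_mul _ _).trans (by simpa using hq _)

theorem family {m : ℕ} (hm : m + 1 = K ^ 3) : ∃ (n k : ℕ) (d : Fin k → ℕ)
    (F : Fin k → MvPolynomial (Fin n) (RR m)) (W : Finset ℂ), W.card = 2 ^ K ∧
    K ≤ Nat.card (Slot n k d) ∧ Nat.card (Slot n k d) ≤ 2 * (4 * K + 5) ^ 3 ∧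
    (∀ i μ, ((F i).coeff μ).totalDegree ≤ m) ∧
    (∀ p i, (map (eval p) (F i)).totalDegree = d i) ∧
    ∀ p, (∃ z, ∀ i, eval z (map (eval p) (F i)) = 0) ↔ ∃ i, p i ∈ W := by
  let q : Polynomial (RR m) := ∏ i, (Polynomial.X - Polynomial.C (X i))
  have hq : ∀ p, q.map (eval p) = ∏ i, (Polynomial.X - Polynomial.C (p i)) := fun p => by
    simp [q, Polynomial.map_prod]
  have hq' : ∀ p, (q.map (eval p)).natDegree < K ^ 3 := fun p => by
    rw [hq, Polynomial.natDegree_prod_of_monic _ _ fun i _ => Polynomial.monic_X_sub_C _]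
    simp [← hm]
  have he : ∀ (p : Fin m → ℂ) v, map (eval p) (map C (eqn K v)) = eqn K v := fun p v => by
    rw [MvPolynomial.map_map,
      show (eval p).comp C = RingHom.id ℂ from RingHom.ext fun c => eval_C c, MvPolynomial.map_id]
  let d : Fin (4 * (K + 1) + 1) → ℕ :=
    Fin.cons 3 fun j => (eqn K (finProdFinEquiv.symm j)).totalDegree
  obtain ⟨s1, s2⟩ := card_slot (d := d) le_rfl fun j => eqn_deg K _
  refine ⟨4 * (K + 1), 4 * (K + 1) + 1, d,
    Fin.cons (cub K q) fun j => map C (eqn K (finProdFinEquiv.symm j)),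
    Polynomial.nthRootsFinset (2 ^ K) 1,
    (Complex.isPrimitiveRoot_exp _ (by positivity)).card_nthRootsFinset, by omega, s2,
    fun i μ => ?_, fun p i => ?_, fun p => ?_⟩
  · refine Fin.cases ?_ (fun j => ?_) i
    · exact coeff_cub K q (fun j => by simpa using deg_coeff_prod univ j) μ
    · simp [coeff_map]
  · refine Fin.cases ?_ (fun j => congrArg totalDegree (he p _)) i
    rw [Fin.cons_zero, map_cub]
    refine (cub_hom K _).totalDegree fun h => ?_
    obtain ⟨w, hw⟩ := Infinite.exists_notMem_finset (univ.image p)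
    have := eval_cub K _ (hq' p) w (fun j => w ^ ex K (finProdFinEquiv.symm j)) (by simp)
    rw [h, map_zero, hq, eq_comm, Polynomial.eval_prod, prod_eq_zero_iff] at this
    obtain ⟨i, -, hi⟩ := this
    exact hw (mem_image.2 ⟨i, mem_univ _, by simpa [sub_eq_zero, eq_comm] using hi⟩)
  · have hv : ∀ z : Fin (4 * (K + 1)) → ℂ,
        (∀ j, eval z (eqn K (finProdFinEquiv.symm j)) = 0) ↔
          ∃ w : ℂ, w ^ 2 ^ K = 1 ∧ ∀ v, z (finProdFinEquiv v) = w ^ ex K v := fun z =>
      (finProdFinEquiv.symm.forall_congr_right (q := fun v => eval z (eqn K v) = 0)).trans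
        (eqn_iff K z)
    simp only [Fin.forall_fin_succ (n := 4 * (K + 1)), Fin.cons_zero, Fin.cons_succ, he, map_cub,
      hv, Polynomial.mem_nthRootsFinset (show 0 < 2 ^ K by positivity)]
    constructor
    · rintro ⟨z, h1, w, h2, h3⟩
      rw [eval_cub K _ (hq' p) w z h3, hq, Polynomial.eval_prod, prod_eq_zero_iff] at h1
      obtain ⟨i, -, hi⟩ := h1
      exact ⟨i, by rwa [← show w = p i by simpa [sub_eq_zero] using hi]⟩
    · rintro ⟨i, hi⟩
      refine ⟨fun j => p i ^ ex K (finProdFinEquiv.symm j), ?_, p i, hi, by simp⟩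
      rw [eval_cub K _ (hq' p) (p i) _ (by simp), hq, Polynomial.eval_prod]
      exact prod_eq_zero (mem_univ i) (by simp)

end Pool.Agent.MP_57f271_lc.H7
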